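import Pool.Agent.Helper50.GX.Defs

/-! Module MAT: the matrices `θ` and their adjugates. -/

set_option autoImplicit false

namespace Pool.Agent.Helper50.GX

open Polynomial

theorem mat_ext {R : Type} {M N : Matrix (Fin 3) (Fin 3) R} (h00 : M 0 0 = N 0 0)
    (h01 : M 0 1 = N 0 1) (h02 : M 0 2 = N 0 2) (h10 : M 1 0 = N 1 0) (h11 : M 1 1 = N 1 1)
    (h12 : M 1 2 = N 1 2) (h20 : M 2 0 = N 2 0) (h21 : M 2 1 = N 2 1) (h22 : M 2 2 = N 2 2) :
    M = N := by
  ext i j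
  fin_cases i <;> fin_cases j <;> assumption

theorem mat_ext_s {R : Type} [CommRing R] {M : Matrix (Fin 3) (Fin 3) R} {s : R} (h00 : M 0 0 = s)
    (h01 : M 0 1 = 0) (h02 : M 0 2 = 0) (h10 : M 1 0 = 0) (h11 : M 1 1 = s)
    (h12 : M 1 2 = 0) (h20 : M 2 0 = 0) (h21 : M 2 1 = 0) (h22 : M 2 2 = s) :
    M = s • (1 : Matrix (Fin 3) (Fin 3) R) := by
  apply mat_ext <;> simp [*]

theorem mat_mul {R : Type} [CommRing R] (M N : Matrix (Fin 3) (Fin 3) R) (i j : Fin 3) :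
    (M * N) i j = M i 0 * N 0 j + M i 1 * N 1 j + M i 2 * N 2 j := by
  rw [Matrix.mul_apply, Fin.sum_univ_three]

section
variable {K : Type} [Field K] (σ : K ≃+* K) (β : K)

@[simp] theorem mat_th00 : th σ β 0 0 = C β := rfl
@[simp] theorem mat_th01 : th σ β 0 1 = C β⁻¹ := rfl
@[simp] theorem mat_th02 : th σ β 0 2 = 0 := rfl
@[simp] theorem mat_th10 : th σ β 1 0 = 0 := rfl
@[simp] theorem mat_th11 : th σ β 1 1 = C (σ β) := rfl
@[simp] theorem mat_th12 : th σ β 1 2 = C (σ β)⁻¹ := rfl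
@[simp] theorem mat_th20 : th σ β 2 0 = C (σ (σ β))⁻¹ * X := rfl
@[simp] theorem mat_th21 : th σ β 2 1 = 0 := rfl
@[simp] theorem mat_th22 : th σ β 2 2 = C (σ (σ β)) := rfl

@[simp] theorem mat_ad00 : ad σ β 0 0 = C β⁻¹ := rfl
@[simp] theorem mat_ad01 : ad σ β 0 1 = C (σ β + (σ β)⁻¹) := rfl
@[simp] theorem mat_ad02 : ad σ β 0 2 = C (σ (σ β)) := rfl
@[simp] theorem mat_ad10 : ad σ β 1 0 = C β * X := rfl
@[simp] theorem mat_ad11 : ad σ β 1 1 = C (σ β)⁻¹ := rfl
@[simp] theorem mat_ad12 : ad σ β 1 2 = C (σ (σ β) + (σ (σ β))⁻¹) := rfl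
@[simp] theorem mat_ad20 : ad σ β 2 0 = C (β + β⁻¹) * X := rfl
@[simp] theorem mat_ad21 : ad σ β 2 1 = C (σ β) * X := rfl
@[simp] theorem mat_ad22 : ad σ β 2 2 = C (σ (σ β))⁻¹ := rfl

@[simp] theorem mat_z00 : (Zm : Mat K) 0 0 = 0 := rfl
@[simp] theorem mat_z01 : (Zm : Mat K) 0 1 = 1 := rfl
@[simp] theorem mat_z02 : (Zm : Mat K) 0 2 = 0 := rfl
@[simp] theorem mat_z10 : (Zm : Mat K) 1 0 = 0 := rfl
@[simp] theorem mat_z11 : (Zm : Mat K) 1 1 = 0 := rfl
@[simp] theorem mat_z12 : (Zm : Mat K) 1 2 = 1 := rfl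
@[simp] theorem mat_z20 : (Zm : Mat K) 2 0 = X := rfl
@[simp] theorem mat_z21 : (Zm : Mat K) 2 1 = 0 := rfl
@[simp] theorem mat_z22 : (Zm : Mat K) 2 2 = 0 := rfl

end

/-- relations in the field -/
theorem mat_rel {K : Type} [Field K] {σ : K ≃+* K} (hD : Dat σ) {β : K} (hβ : β ∈ XS σ) :
    β⁻¹ = 1 + σ β ∧ (σ β)⁻¹ = 1 + σ (σ β) ∧ (σ (σ β))⁻¹ = 1 + β ∧
    β * σ β = 1 + β ∧ σ β * σ (σ β) = 1 + σ β ∧ σ (σ β) * β = 1 + σ (σ β) := by
  have h2 := hD.two
  have r1 : β * σ β = 1 + β := hβ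
  have r2 : σ β * σ (σ β) = 1 + σ β := by
    have := congrArg σ r1
    rwa [map_mul, map_add, map_one] at this
  have r3 : σ (σ β) * β = 1 + σ (σ β) := by
    have := congrArg σ r2
    rwa [map_mul, map_add, map_one, hD.ord] at this
  refine ⟨?_, ?_, ?_, r1, r2, r3⟩
  · apply inv_eq_of_mul_eq_one_right
    linear_combination r1 + β * h2
  · apply inv_eq_of_mul_eq_one_right
    linear_combination r2 + σ β * h2
  · apply inv_eq_of_mul_eq_one_right
    linear_combination r3 + σ (σ β) * h2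

theorem mat_rev {K : Type} [Field K] (u v : K) (s : ℕ) :
    (C u + C v * X).coeff s = if s ≤ 1 then (C v + C u * X : K[X]).coeff (1 - s) else 0 := by
  rcases s with _ | _ | s
  · simp
  · simp
  · rw [if_neg (by omega)]
    simp

theorem mat_rev' {K : Type} [Field K] {P Q : K[X]} (u v : K) (hP : P = C u + C v * X)
    (hQ : Q = C v + C u * X) (s : ℕ) :
    P.coeff s = if s ≤ 1 then Q.coeff (1 - s) else 0 := by
  rw [hP, hQ]; exact mat_rev u v s

theorem st_MAT : ST_MAT := by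
  intro K _ σ hD β hβ γ hγ
  obtain ⟨i0, i1, i2, r1, r2, r3⟩ := mat_rel hD hβ
  have h2 : (2 : K[X]) = 0 := by
    rw [← map_ofNat (C : K →+* K[X]) 2, hD.two, map_zero]
  have R1 : (C β : K[X]) * C (σ β) = 1 + C β := by
    rw [← C_mul, r1]; simp
  have R2 : (C (σ β) : K[X]) * C (σ (σ β)) = 1 + C (σ β) := by
    rw [← C_mul, r2]; simp
  have R3 : (C (σ (σ β)) : K[X]) * C β = 1 + C (σ (σ β)) := by
    rw [← C_mul, r3]; simp
  have I0 : (C β⁻¹ : K[X]) = 1 + C (σ β) := by rw [i0]; simp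
  have I1 : (C (σ β)⁻¹ : K[X]) = 1 + C (σ (σ β)) := by rw [i1]; simp
  have I2 : (C (σ (σ β))⁻¹ : K[X]) = 1 + C β := by rw [i2]; simp
  have hTA : th σ β * ad σ β = (1 + X : K[X]) • (1 : Mat K) := by
    apply mat_ext_s <;> rw [mat_mul] <;>
      simp only [mat_th00, mat_th01, mat_th02, mat_th10, mat_th11, mat_th12, mat_th20, mat_th21,
        mat_th22, mat_ad00, mat_ad01, mat_ad02, mat_ad10, mat_ad11, mat_ad12, mat_ad20, mat_ad21,
        mat_ad22, C_add, I0, I1, I2] <;>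
      generalize (C β : K[X]) = a at * <;> generalize (C (σ β) : K[X]) = b at * <;>
      generalize (C (σ (σ β)) : K[X]) = c at *
    · linear_combination (1 + X) * R1 + (a + a*X) * h2
    · linear_combination (1) * R1 + (1) * R2 + (1) * R3 + (2*1 + c + b + a) * h2
    · linear_combination (1) * R1 + (1) * R2 + (1) * R3 + (2*1 + c + b + a) * h2
    · linear_combination (X) * R1 + (X) * R2 + (X) * R3 + (2*X + c*X + b*X + a*X) * h2
    · linear_combination (1 + X) * R2 + (b + b*X) * h2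
    · linear_combination (1) * R1 + (1) * R2 + (1) * R3 + (2*1 + c + b + a) * h2
    · linear_combination (X) * R1 + (X) * R2 + (X) * R3 + (2*X + c*X + b*X + a*X) * h2
    · linear_combination (X) * R1 + (X) * R2 + (X) * R3 + (2*X + c*X + b*X + a*X) * h2
    · linear_combination (1 + X) * R3 + (c + c*X) * h2
  have hAT : ad σ β * th σ β = (1 + X : K[X]) • (1 : Mat K) := by
    apply mat_ext_s <;> rw [mat_mul] <;>
      simp only [mat_th00, mat_th01, mat_th02, mat_th10, mat_th11, mat_th12, mat_th20, mat_th21,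
        mat_th22, mat_ad00, mat_ad01, mat_ad02, mat_ad10, mat_ad11, mat_ad12, mat_ad20, mat_ad21,
        mat_ad22, C_add, I0, I1, I2] <;>
      generalize (C β : K[X]) = a at * <;> generalize (C (σ β) : K[X]) = b at * <;>
      generalize (C (σ (σ β)) : K[X]) = c at *
    · linear_combination (1) * R1 + (X) * R3 + (c*X + a) * h2
    · linear_combination (1) * R2 + (1 + 2*b + b^2) * h2
    · linear_combination (1) * R2 + (1 + c + c^2 + b) * h2
    · linear_combination (X) * R3 + (X + c*X + a*X + a^2*X) * h2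
    · linear_combination (X) * R1 + (1) * R2 + (b + a*X) * h2
    · linear_combination (1) * R3 + (1 + 2*c + c^2) * h2
    · linear_combination (X) * R1 + (X + 2*a*X + a^2*X) * h2
    · linear_combination (X) * R1 + (X + b*X + b^2*X + a*X) * h2
    · linear_combination (X) * R2 + (1) * R3 + (c + b*X) * h2
  have hdT : (th σ β).det = 1 + X := by
    rw [Matrix.det_fin_three]
    simp only [mat_th00, mat_th01, mat_th02, mat_th10, mat_th11, mat_th12, mat_th20, mat_th21,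
        mat_th22, I0, I1, I2]
    generalize (C β : K[X]) = a at *
    generalize (C (σ β) : K[X]) = b at *
    generalize (C (σ (σ β)) : K[X]) = c at *
    linear_combination (X + c + c*X) * R1 + (X) * R2 + (1 + 2*X) * R3 + (2*X + c + 2*c*X + b*X + a*X) * h2
  refine ⟨hTA, hAT, hdT, ?_, ?_, ?_, ?_⟩
  · have h1 : (th σ β * ad σ β).det = (1 + X) ^ 3 := by
      rw [hTA, Matrix.det_smul]; simp
    rw [Matrix.det_mul, hdT] at h1
    have hne : (1 + X : K[X]) ≠ 0 := by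
      intro h
      have := congrArg (fun p : K[X] => p.coeff 1) h
      simp [coeff_one] at this
    apply mul_left_cancel₀ hne
    rw [h1]; ring
  · intro i j s
    fin_cases i <;> fin_cases j
    · exact mat_rev' (γ * β⁻¹) (γ⁻¹ * β) (by simp [mat_mul]; ring) (by simp [mat_mul]; ring) s
    · exact mat_rev' (γ * (σ β + (σ β)⁻¹) + γ⁻¹ * (σ β)⁻¹) 0 (by simp [mat_mul])
        (by simp [mat_mul]; ring) s
    · exact mat_rev' (γ * σ (σ β) + γ⁻¹ * (σ (σ β) + (σ (σ β))⁻¹)) 0 (by simp [mat_mul])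
        (by simp [mat_mul]; ring) s
    · exact mat_rev' 0 (σ γ * β + (σ γ)⁻¹ * (β + β⁻¹)) (by simp [mat_mul]; ring)
        (by simp [mat_mul]; ring) s
    · exact mat_rev' (σ γ * (σ β)⁻¹) ((σ γ)⁻¹ * σ β) (by simp [mat_mul]; ring)
        (by simp [mat_mul]; ring) s
    · exact mat_rev' (σ γ * (σ (σ β) + (σ (σ β))⁻¹) + (σ γ)⁻¹ * (σ (σ β))⁻¹) 0 (by simp [mat_mul])
        (by simp [mat_mul]; ring) s
    · exact mat_rev' 0 ((σ (σ γ))⁻¹ * β⁻¹ + σ (σ γ) * (β + β⁻¹)) (by simp [mat_mul]; ring)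
        (by simp [mat_mul]; ring) s
    · exact mat_rev' 0 ((σ (σ γ))⁻¹ * (σ β + (σ β)⁻¹) + σ (σ γ) * σ β) (by simp [mat_mul]; ring)
        (by simp [mat_mul]; ring) s
    · exact mat_rev' (σ (σ γ) * (σ (σ β))⁻¹) ((σ (σ γ))⁻¹ * σ (σ β)) (by simp [mat_mul]; ring)
        (by simp [mat_mul]; ring) s
  · apply mat_ext <;> rw [mat_mul, mat_mul] <;> simp [Matrix.map_apply, hD.ord] <;> ring
  · apply mat_ext <;> rw [mat_mul, mat_mul] <;> simp [Matrix.map_apply, hD.ord] <;> ring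

end Pool.Agent.Helper50.GX
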